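import Pool.Agent.N882.UE.Jan

/-!
# MP_4776b1_ag: cycles on singular varieties over finite fields and bilinear equations

`T : Homology k Ω` are data of motivic homology `H_i^M(X, ℚ(j)) = CH_j(X, i - 2 j) ⊗ ℚ` and of `ℓ`-adic
homology `H_i(X, ℚ_ℓ(j)) ⊗ Ω` of the schemes `X` over the finite field `k`, with the Frobenius and the
regulator (for `i = 2 j` this is the cycle class map). `IsTheory T` and `HasWeights T` list the known
properties of these groups which are used. `FT True X` means that `X` is a variety (separated and of
finite type over `k`).

`Onto T X`: for all `j` the cycle class map for cycles of dimension `j` is surjective (statement (a) of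
Q1), and the eigenvalue one of the Frobenius on `H_(2j)(X, ℚ_ℓ(j))` is semisimple.

`Kone T X`: for all `j` the regulator `CH_j(X, 1) ⊗ ℚ_ℓ → H_(2j+1)(X, ℚ_ℓ(j))^G` is surjective and
`CH_j(X) ⊗ ℚ_ℓ → H_(2j)(X, ℚ_ℓ(j))^G` is bijective, and the eigenvalue one is semisimple on both spaces.

`Jannsen T X j`: the statements (a), (b) of Q1 and Q2 for the cycles of dimension `j` on `X`.

`bilS t` is the closed subscheme of the affine space of dimension `a + b` given by the `c` bilinear
equations `∑ t_ijl x_i y_j = 0`, and `hypS t` is the smooth affine cubic hypersurface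
`∑ t_ijl x_i y_j z_l = 1`.
-/

set_option autoImplicit false

open CategoryTheory AlgebraicGeometry Pool.Agent.Y116.UV Pool.Agent.N882.UE Pool.Agent.Q282.UK

namespace Pool.Agent.Results.MP_4776b1_ag.BilinearEquations

variable {k Ω : Type} [Field k] [Field Ω]

/-- `Onto` for all varieties of dimension at most `d`. -/
def AllDim (T : Homology k Ω) (d : ℕ) : Prop :=
  ∀ X : Sch k, FT True X → topologicalKrullDim X.left ≤ d → Onto T X

/-- `Onto` for all smooth varieties of dimension at most `d`. -/
def SmoothDim (T : Homology k Ω) (d : ℕ) : Prop :=
  ∀ X : Sch k, FT True X → Smooth X.hom → topologicalKrullDim X.left ≤ d → Onto T X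

/-- `Onto` for the systems of bilinear equations such that there are at most `r` variables `x` or at
most `r` variables `y`. -/
def Variables (T : Homology k Ω) (r : ℕ) : Prop :=
  ∀ (a b c : ℕ) (t : Fin a → Fin b → Fin c → k), (a ≤ r ∨ b ≤ r) → Onto T (bilS t)

/-- `Onto` for all systems of at most `r` bilinear equations. -/
def Equations (T : Homology k Ω) (r : ℕ) : Prop :=
  ∀ (a b c : ℕ) (t : Fin a → Fin b → Fin c → k), c ≤ r → Onto T (bilS t)

/-- `Kone` for the smooth hypersurfaces `t(x, y, z) = 1` of the trilinear forms such that one of the
three blocks of variables has at most `r` variables. -/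
def Hypersurfaces (T : Homology k Ω) (r : ℕ) : Prop :=
  ∀ (a b c : ℕ) (t : Fin a → Fin b → Fin c → k), (a ≤ r ∨ b ≤ r ∨ c ≤ r) → Kone T (hypS t)

/-- **Theorem.** Let `T` be motivic and `ℓ`-adic homology of the schemes over the finite field `k`; the
conjecture `TB` (bijectivity of the regulators in all degrees, and semisimplicity) is known in dimension
at most one (`curves`).
(1) For every `d` the following are equivalent: surjectivity of the cycle class maps, with semisimple
eigenvalue one, for all varieties of dimension at most `d`; for the smooth ones; for the (singular)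
systems of bilinear equations with at most `d + 2` variables in one of the two blocks of variables; for
the systems of at most `d + 2` bilinear equations; `Kone` for the smooth cubic hypersurfaces
`t(x, y, z) = 1` with a block of at most `d + 2` variables.
(2) Jannsen's statements (a) and (b) of Q1 and Q2 (the order of the L-function is minus the rank of the
group of classes) are true, for cycles of every dimension, for all varieties given by bilinear equations
such that there are at most three variables in one of the two blocks (any number of variables in the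
other one, any number of equations), or at most three equations; and for the hypersurfaces
`t(x, y, z) = 1` with a block of at most three variables. -/
theorem result [Finite k] [CharZero Ω] (T : Homology k Ω) (hT : IsTheory T) (hW : HasWeights T)
    (curves : ∀ X : Sch k, FT True X → topologicalKrullDim X.left ≤ 1 → TB T X) :
    (∀ d : ℕ, [AllDim T d, SmoothDim T d, Variables T (d + 2), Equations T (d + 2),
      Hypersurfaces T (d + 2)].TFAE) ∧
    ∀ (a b c : ℕ) (t : Fin a → Fin b → Fin c → k), (a ≤ 3 ∨ b ≤ 3 ∨ c ≤ 3) → ∀ j : ℤ,
      Jannsen T (bilS t) j ∧ Jannsen T (hypS t) j := by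
  have h1 : TB T (aff k k) := by
    refine curves _ (ft_aff True) ?_
    rw [Pool.Agent.Z125.UN.topDim_aff, ringKrullDim_eq_zero_of_field]
    exact zero_le_one
  have hB := bnd_tb hT h1
  have hK := wk_onto hT hW h1
  refine ⟨fun d => ?_, fun a b c t hm j => ?_⟩
  · have h15 : AllDim T d ↔ Hypersurfaces T (d + 2) :=
      (w_dim hK d).trans (kone_iff_dim hT hW h1 (d + 2))
    tfae_have 1 ↔ 2 := w_smooth hK d
    tfae_have 1 ↔ 5 := h15
    tfae_have 3 → 1 := fun h => (w_dim hK d).mpr fun a b c t hb => h a b c t (Or.inr hb)
    tfae_have 5 → 3 := by
      intro h a b c t hm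
      rw [onto_hyp hT hW h1]
      rcases hm with hm | hm
      · exact h a b c t (Or.inl hm)
      · exact h a b c t (Or.inr (Or.inl hm))
    tfae_have 5 → 4 := by
      intro h a b c t hm
      rw [onto_hyp hT hW h1]
      exact h a b c t (Or.inr (Or.inr hm))
    tfae_have 4 → 5 := by
      intro h a b c t hm
      refine of_second (Q := fun X _ => Kone T X) (fun e _ h => kone_alg hT e h) ?_ t hm
      intro a b c t hb
      exact kone_alg hT (Pool.Agent.Z125.UN.swapR t).symm
        ((onto_hyp hT hW h1 (fun i l j => t i j l)).mp (h a c b _ hb))
    tfae_finish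
  · have h3 : TB T (hypS t) := (Pool.Agent.Q193.LT.dim_iff hB 1).mp
      (fun X hX hd => curves X hX (by exact_mod_cast hd)) a b c t hm
    exact ⟨jannsen_of_tb hT ((bil_iff hB t).mpr h3) j, jannsen_of_tb hT h3 j⟩

end Pool.Agent.Results.MP_4776b1_ag.BilinearEquations
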