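import Pool.Agent.N174.Lef.OMain

/-!
# A Lefschetz theorem for the Tate conjecture for products with a singular variety

Let `U` be any variety over a finitely generated field, singular or not proper, `d = dim U`. The
structure `OpenVar` records its Borel-Moore homology `U.M`, with `H_(2 d - i)(U)(- d)` in degree
`i` and the action of the Galois group `Γ`, and for each smooth projective variety `V` the span
`U.cyc V j` of the classes of the cycles of codimension `j` on `V × U`, that is of dimension
`dim V + d - j`, in `H(V) ⊗ U.M`, the Borel-Moore homology of `V × U`. They are stable under the
pull-back by `f × id` for the morphisms `f` of smooth projective varieties, and under the product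
with cycles on `V`. The Tate conjecture `TateTimes` for `V × U` says that all classes of degree
`2 j`, i.e. in `H_(2 (dim V + d - j))(V × U)`, which are semi-invariant (with the twist `χ ^ j`)
under a subgroup of finite index are in `U.cyc V j`, for all `j`.

Let `f : X ⟶ Y` be a morphism of smooth projective varieties such that the vanishing cohomology
`E` of `f` (the kernel of the push-forward) is in the middle degree and irreducible under all
subgroups of finite index of `Γ`, and such that some `g ∈ Γ` acts trivially on the cohomology of
`Y` and on the homology of `U`, and by a Picard-Lefschetz formula on `E`. Suppose that the
retraction of `f^*` along `E` is algebraic. Then the Tate conjecture for `Y ^ (n + 1) × U` implies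
the Tate conjecture for `X ^ (n + 1) × U`, for cycles of all dimensions. There is no condition on
`n` if the dimension of `X` is odd, and if it is even the condition is `n + 1 < dim E`. The theorem
can be iterated: `X` may be the top of a tower of such morphisms over `Y`. No resolution, proper
cover or compactification of `U` is used, and no semisimplicity and no weights.
-/

open Pool.Agent.H914 Pool.Agent.TH125.Gal Pool.Agent.N174.Lef.Open

universe u v w

namespace Pool.Agent.Results.MP_4776b1_ag.LefschetzTimesSingular

/-- **The Lefschetz theorem for the Tate conjecture for products with a singular variety.** -/
theorem result {k : Type u} [Field k] {𝒱 : VarClass k} {ops : CycleOps 𝒱}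
    {W : WeilCohomology.{u, v} ops} {Γ : Type w} [Group Γ] {χ : Γ →* W.Kˣ}
    {X Y V V' : GVar W Γ} {n : ℕ} {U : OpenVar W Γ} (h : TowerOver χ (n + 1) U Y X)
    (hX : IsPower X n V) (hY : IsPower Y n V') (hT : TateTimes χ V' U) : TateTimes χ V U :=
  tate_open h hX hY hT

end Pool.Agent.Results.MP_4776b1_ag.LefschetzTimesSingular
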