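import Mathlib
import Pool.Agent.N995.Os3

/-!
# Jannsen's conjectures for singular and open varieties over all finitely generated fields of
# characteristic `p`, generated by ordinary and supersingular abelian varieties

Let `k` be a finitely generated field of characteristic `p`, of any transcendence degree `D ≥ 0`, with the
field of constants with `q = p ^ n` elements, and let `A` be an ordinary abelian variety over `k`, of any
dimension. Let `X` be the canonical lift of `A ⊗ k̄` (Serre and Tate), considered as a complex abelian
variety. Suppose that (`SmallTypes`) each simple factor of `X`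

* has dimension at most three, or
* is of Albert type I or II with odd relative dimension, or relative dimension at most three (the
  dimension is unbounded, for instance `End = ℤ` and any odd dimension), or
* has an imaginary quadratic field as its endomorphism algebra, with multiplicities at most three (and
  trivial discriminant if both are three), or
* has complex multiplication (these are the isotrivial factors), where the CM part is divided into
  independent blocks of known kinds;

or that (`FactorsOfSmall`) all simple factors of `X` are factors of one abelian variety of dimension at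
most five without fourfold factor `Y` with `End(Y) = ℤ`.

Let `U` be an arbitrary variety over `k`, singular or smooth, proper or not. By de Jong there are a smooth
projective variety `V`, an open subvariety `V°` and a proper surjective map from `V°` to `U` (an alteration
of a compactification), and a smooth projective variety `Y` which is mapped onto `V \ V°` and onto the
closure of `V° ×_U V°`. Suppose that the homology of `V` and `Y` (in degree `2 i`) and the dual homology group
of `V` are generated by `A` and by a supersingular abelian variety (`IsGeneratedBy`: they are sums of images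
of cohomology groups of products under algebraic correspondences). Examples for `U`: products of singular
or open curves such that the Jacobians of their complete normalizations are products of such abelian
varieties, semiabelian varieties over such abelian varieties, cones over varieties of this kind, and the
complement of a union of smooth subvarieties with smooth intersections of this kind in a variety of this
kind.

Then all of Jannsen's conjectures are true for cycles of dimension `i` on `U`:

* (a) the invariants of the Galois group in `H_{2 i}(U ⊗ k̄, ℚ_ℓ(i))` are spanned by the classes of cycles on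
  `U`;
* (b) the group `B_i(U)` of these classes (modulo torsion, which is finite because the homology with
  coefficients `ℤ_ℓ` is finitely generated) is free of finite rank `r`, and a basis of it is linearly
  independent over `ℚ_ℓ`: so `B_i(U) ⊗ ℚ_ℓ` is isomorphic to the space of the invariants;
* Q2: the L-function of `H_c^{2 i}(U)` converges to the right of `s = i + D`, has a meromorphic continuation
  to the complex plane, and its order at `s = i + D = i + dim_a k` is `- r`. (In the Lean statement `s` is
  shifted by `i`, by the Tate twist.)

The case of a smooth projective variety `U = V` is the starting point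
(`MP_af4e75_ag.CharacteristicPOrdinary`, where Q2 is proved for the limit of `(s - D) ^ r L(s)` only).

The proof: the theory of weights and the semisimplicity of the homology of smooth projective varieties
reduce (a) to the Tate conjecture for `V` (Jannsen). For (b), the classes of cycles on `V` whose image on `U` is
zero span over `ℚ_ℓ` the space of all invariants with this property, by the Tate conjecture for `Y` and the
exactness of the sequence of the parts of weight zero. The L-function is computed with the trace formula:
it is a rational function of `q ^ (-s)`.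
-/

namespace Pool.Agent.Results.MP_4776b1_ag.OrdinaryCharacteristicP

open Module Pool.Agent.Y90 Pool.Agent.N995.OD TensorProduct

/-- **(a), (b) and Q2 for singular and open varieties generated by ordinary and supersingular abelian
varieties.** The ordinary abelian variety over `k` is given by its canonical lift `X` and the Galois
representation `ρ`; `W` is the homology group of an arbitrary variety `U` over `k`, `WV`, `WV'` and `WY`
are groups of smooth projective varieties that cover it. -/
theorem result (p : ℕ) [hp : Fact p.Prime] (n : ℕ) (hn : 0 < n) (𝔙 : ValuationSubring ℂ)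
    (h𝔙 : 𝔙.valuation (p : ℂ) < 1) (X : AV) (hX : SmallTypes X ∨ FactorsOfSmall X)
    (E : X.H → X.H → ℚ) (hE : Pool.Agent.Y90.St.IsPolarization X.per E)
    (ℓ : ℕ) [Fact ℓ.Prime] [Algebra ℚ_[ℓ] ℂ] [Algebra.IsAlgebraic ℚ_[ℓ] ℂ]
    {Γ : Type} [Group Γ] (ρ : Representation ℚ_[ℓ] Γ (ℚ_[ℓ] ⊗[ℚ] X.H)) (χ : Γ →* ℚ_[ℓ])
    {P₀ : Type} [Nonempty P₀] (deg₀ : P₀ → ℕ) (F₀ : P₀ → Γ) (hdeg : ∀ y, 0 < deg₀ y)
    (hρ : IsOrdinary X.per E 𝔙 (p ^ n) ρ χ deg₀ F₀)
    {WY WV WV' W : Type}
    [AddCommGroup WY] [Module ℚ_[ℓ] WY] [Module ℚ WY] [FiniteDimensional ℚ_[ℓ] WY]
    [AddCommGroup WV] [Module ℚ_[ℓ] WV] [Module ℚ WV] [FiniteDimensional ℚ_[ℓ] WV]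
    [AddCommGroup WV'] [Module ℚ_[ℓ] WV'] [Module ℚ WV'] [FiniteDimensional ℚ_[ℓ] WV']
    [AddCommGroup W] [Module ℚ_[ℓ] W] [Module ℚ W] [FiniteDimensional ℚ_[ℓ] W]
    (RY : Representation ℚ_[ℓ] Γ WY) (RV : Representation ℚ_[ℓ] Γ WV)
    (RV' : Representation ℚ_[ℓ] Γ WV') (R : Representation ℚ_[ℓ] Γ W)
    (ZY : Submodule ℚ WY) (ZV : Submodule ℚ WV) (ZV' : Submodule ℚ WV') (LY : AddSubgroup WY)
    (LV : AddSubgroup WV) (LV' : AddSubgroup WV') (L : AddSubgroup W)
    (B : WV →ₗ[ℚ_[ℓ]] WV' →ₗ[ℚ_[ℓ]] ℚ_[ℓ]) (v : WY →ₗ[ℚ_[ℓ]] WV) (u : WV →ₗ[ℚ_[ℓ]] W)
    (hY : IsCycleGroup RY ZY LY) (hV : IsCycleGroup RV ZV LV) (hV' : IsCycleGroup RV' ZV' LV')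
    (hB : IsDual RV RV' ZV ZV' LV LV' B) (hU : IsPresentation RY RV R LY LV L v u)
    (gY : IsGeneratedBy X ρ χ RY ZY) (gV : IsGeneratedBy X ρ χ RV ZV)
    (gV' : IsGeneratedBy X ρ χ RV' ZV') :
    Submodule.span ℚ_[ℓ] (L : Set W) = R.invariants ∧
    ∃ (r : ℕ) (b : Basis (Fin r) ℤ L), (LinearIndependent ℚ_[ℓ] fun i => (b i : W)) ∧
      ∀ (D : ℕ) (P : Type) (deg : P → ℕ) (F : P → Γ) (φ : Γ) (W₀ : Submodule ℚ_[ℓ] W)
        (Fr : Module.End ℚ_[ℓ] W₀) (N : ℕ) (ε : Fin N → ℤ) (β : Fin N → ℂ),
        IsOpenModel (p ^ n) D R (LinearMap.range u) deg F φ W₀ Fr ε β →
          HasOrder (fun y => (p ^ n) ^ deg y) (fun y => (R (F y)).baseChange ℂ) D (-r) :=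
  main_open hp.out hn h𝔙 X hX hE hdeg hρ hY hV hV' hB hU gY gV gV'

end Pool.Agent.Results.MP_4776b1_ag.OrdinaryCharacteristicP
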