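import Pool.Agent.N184.QP.Open

/-!
# The order of `L(X, s)` at `i + dim_a(k)` for arbitrary varieties in characteristic zero

Let `k` be a finitely generated field of characteristic `0`, `X` any variety over `k` (it may be singular
or not proper) and `i ≥ 0`. Let `U` be a smooth scheme over `ℤ[1 / l]`, of dimension
`e + 1 = dim_a(k)`, with function field `k`, over which `X` has a model `f` such that `R^{2 i} f_! ℚ_l` is
lisse and mixed. Let `W` be the part of weight `0` of `H_{2 i}(X̄, ℚ_l(i))` fixed by the geometric
fundamental group of `U` (if `k` is not regular over `ℚ` we take the sum over the embeddings of the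
algebraic closure of `ℚ` in `k`); it is a representation of the absolute Galois group of `ℚ`, and its
invariants are the invariants of `G_k` in `H_{2 i}(X̄, ℚ_l(i))`, because the weights of the latter
group are at least `0`.

1. `L(X, s)` has a meromorphic continuation to a neighbourhood of `m = i + dim_a(k)` and the order `-r` at
   `m` if and only if the `L`-function of the dual of `W` has a meromorphic continuation to a
   neighbourhood of `1` and the order `-r` there. So Q2 is a question on `W` only.
2. If `W` is spanned by classes of algebraic cycles on `X̄` then (a), (b) and Q2 hold for `X`, `i` and `k`.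
3. (a), (b) and Q2 hold if `W` has no classes of Hodge type `(a, -a)`, `a > 0`, and the Hodge classes in
   `W` are algebraic; by Lefschetz the latter holds for `i = 1` and `i = dim X - 1`.

In (2), (3) only the part of weight zero fixed by monodromy enters: `H_{2 i}(X̄, ℚ_l(i))` itself need not
be algebraic, neither for `X` nor for a resolution or a compactification of `X`. For example let `X` be
the complement of any closed subset in a family of K3 surfaces with nonconstant periods,
or a union of such surfaces with common curves, or let the components of the normalization of `X` be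
such surfaces and surfaces with `p_g = 0` (`i = 1`), everything over `k` of positive transcendence degree.

Idea of the proof. Only the quotient of weight `2 e` of `H_c^{2 e}` of the fibre of `U` over `p` with
coefficients in `R^{2 i} f_! ℚ_l (i)` contributes at the edge (Deligne's Weil II); so the quotient of the
two `L`-functions is, in the half plane `Re s > 3 / 4` (after the shift), a product of the exponentials of
absolutely convergent sums of analytic functions. The character of the rational representation of a
finite Galois group on the classes of cycles is a rational combination of permutation characters; for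
these we use the continuation of the Dedekind zeta functions to a neighbourhood of `1`.
-/

set_option autoImplicit false

open NumberField Module
open Pool.Agent.N184.QP

namespace Pool.Agent.Results.MP_4776b1_ag.TopWeightFixedPart

/-- **The order of `L(X, s)` depends only on the part of weight zero fixed by monodromy, and the
conjectures hold if this part is algebraic.** -/
theorem result {e : ℕ} {P H W : Type} [AddCommGroup H] [Module ℂ H] [FiniteDimensional ℂ H]
    [AddCommGroup W] [Module ℂ W] [Module ℚ W] [FiniteDimensional ℂ W] (M : OpenModel e P H W) :
    (∀ s : ℂ, (e : ℝ) + 1 < s.re → HasProd (fun y : P =>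
      (LinearMap.det (1 - ((M.Y.N y : ℂ) ^ (-s)) • M.F y))⁻¹) (M.L s)) ∧
    (∀ s : ℂ, 1 < s.re → HasProd (fun p : {p : Nat.Primes // p ∉ M.S} =>
      (LinearMap.det (1 - (((p.1 : ℕ) : ℂ) ^ (-s)) • M.ρ (M.frob p.1)))⁻¹) (M.LW s)) ∧
    (∀ r : ℕ, HasPole M.L (e + 1) r ↔ HasPole M.LW 1 r) ∧
    ∀ C : OpenCycles M, (Submodule.span ℂ (C.W₀ : Set W) = ⊤ ∨
        ∃ D : OpenHodge C, ∀ a, 0 < a → D.h a = ⊥) →
      FiniteDimensional ℚ C.B ∧ Submodule.span ℂ (C.B : Set W) = M.ρ.invariants ∧
        finrank ℚ C.B = finrank ℂ M.ρ.invariants ∧ HasPole M.L (e + 1) (finrank ℚ C.B) := by
  refine ⟨fun s hs => M.hasProd_L hs, fun s hs => M.hasProd_LW hs, M.hasPole_iff, fun C hC => ?_⟩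
  obtain ⟨h1, h2, h3⟩ := C.pole (hC.elim id fun ⟨D, hD⟩ => D.span_eq_top hD)
  exact ⟨h1, C.span_eq (fun q w => Rat.cast_smul_eq_qsmul ℂ q w) h1 h2, h2, h3⟩

end Pool.Agent.Results.MP_4776b1_ag.TopWeightFixedPart
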